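import Pool.Agent.Helper94.Tot.Goals

/-! # Packet Sum: sums of truncated divisor sums over a progression -/

set_option autoImplicit false

open Finset

namespace Pool.Agent.Helper90.Tot

open Pool.Agent.Helper94.Tot

theorem exists_class (d a : ℕ) (hd : 1 ≤ d) (h : Nat.Coprime d a) :
    ∃ v : ℕ, ∀ m : ℕ, d ∣ a * m + 1 ↔ m ≡ v [MOD d] := by
  have : NeZero d := ⟨by omega⟩
  let u := ZMod.unitOfCoprime a h.symm
  have hu : ((u : ZMod d)) = a := ZMod.coe_unitOfCoprime a h.symm
  refine ⟨(-((u⁻¹ : (ZMod d)ˣ) : ZMod d)).val, fun m => ?_⟩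
  rw [← ZMod.natCast_eq_zero_iff, ← ZMod.natCast_eq_natCast_iff, ZMod.natCast_val, ZMod.cast_id',
    id]
  push_cast
  rw [← hu]
  constructor
  · intro h1
    have h2 : ((u⁻¹ : (ZMod d)ˣ) : ZMod d) * ((u : ZMod d) * m + 1) = 0 := by rw [h1, mul_zero]
    rw [mul_add, ← mul_assoc, Units.inv_mul, one_mul, mul_one] at h2
    exact eq_neg_of_add_eq_zero_left h2
  · intro h1
    rw [h1, mul_neg, Units.mul_inv, neg_add_cancel]

theorem count_class (d a M : ℕ) (hd : 1 ≤ d) (h : Nat.Coprime d a) :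
    |(((Ico M (2 * M)).filter (fun m => d ∣ a * m + 1)).card : ℝ) - M / d| ≤ 1 := by
  obtain ⟨v, hv⟩ := exists_class d a hd h
  have e1 : (Ico M (2 * M)).filter (fun m => d ∣ a * m + 1) =
      (Ico M (2 * M)).filter (fun m => m ≡ v [MOD d]) :=
    Finset.filter_congr fun m _ => hv m
  rw [e1]
  have h2 := Nat.Ico_filter_modEq_card M (2 * M) (r := d) (by omega) v
  have hd' : (0 : ℚ) < d := by exact_mod_cast (by omega : 0 < d)
  set A : ℚ := (((2 * M : ℕ) : ℚ) - v) / d with hA
  set B : ℚ := ((M : ℚ) - v) / d with hB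
  have hAB : A - B = M / d := by
    rw [hA, hB]
    push_cast
    ring
  have hM : (0 : ℚ) ≤ M / d := by positivity
  have hle : B ≤ A := by linarith
  have hc : ⌈B⌉ ≤ ⌈A⌉ := Int.ceil_mono hle
  rw [max_eq_left (by omega)] at h2
  have a1 := Int.le_ceil A
  have a2 := Int.ceil_lt_add_one A
  have b1 := Int.le_ceil B
  have b2 := Int.ceil_lt_add_one B
  have h3 : |((((Ico M (2 * M)).filter (fun m => m ≡ v [MOD d])).card : ℤ) : ℚ) - M / d| ≤ 1 := by
    rw [h2]
    push_cast
    rw [abs_le]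
    constructor <;> linarith
  obtain ⟨l, r⟩ := abs_le.1 h3
  have l' := (Rat.cast_le (K := ℝ)).2 l
  have r' := (Rat.cast_le (K := ℝ)).2 r
  push_cast at l' r'
  exact abs_le.2 ⟨l', r'⟩

theorem count_zero (d a M : ℕ) (h : ¬ Nat.Coprime d a) :
    (Ico M (2 * M)).filter (fun m => d ∣ a * m + 1) = ∅ := by
  rw [Finset.filter_eq_empty_iff]
  intro m _ hm
  apply h
  rw [Nat.coprime_iff_gcd_eq_one]
  have h1 : Nat.gcd d a ∣ a * m + 1 := (Nat.gcd_dvd_left d a).trans hm
  have h2 : Nat.gcd d a ∣ a * m := (Nat.gcd_dvd_right d a).mul_right m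
  exact Nat.dvd_one.1 ((Nat.dvd_add_right h2).1 h1)

theorem pf_Sum : StmtSum := by
  intro D Y hD b k M _ _ _
  have hsplit : ∑ m ∈ Ico M (2 * M), SS D (b * m * k + 1) =
      ∑ d ∈ D, (ArithmeticFunction.moebius d : ℝ) *
        (((Ico M (2 * M)).filter (fun m => d ∣ b * k * m + 1)).card : ℝ) := by
    unfold SS
    simp only [Finset.sum_filter]
    rw [Finset.sum_comm]
    refine Finset.sum_congr rfl fun d _ => ?_
    rw [← Finset.sum_filter, Finset.sum_const, nsmul_eq_mul, mul_comm]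
    congr 2
    refine congrArg _ (Finset.filter_congr fun m _ => ?_)
    rw [show b * m * k = b * k * m by ring]
  have hsg : (M : ℝ) * sg D (b * k) =
      ∑ d ∈ D, (ArithmeticFunction.moebius d : ℝ) *
        (if Nat.Coprime d (b * k) then (M : ℝ) / d else 0) := by
    unfold sg
    rw [Finset.mul_sum, Finset.sum_filter]
    refine Finset.sum_congr rfl fun d _ => ?_
    split_ifs
    · ring
    · ring
  rw [hsplit, hsg, ← Finset.sum_sub_distrib]
  refine (Finset.abs_sum_le_sum_abs _ _).trans ?_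
  have hterm : ∀ d ∈ D, |(ArithmeticFunction.moebius d : ℝ) *
        (((Ico M (2 * M)).filter (fun m => d ∣ b * k * m + 1)).card : ℝ) -
        (ArithmeticFunction.moebius d : ℝ) *
        (if Nat.Coprime d (b * k) then (M : ℝ) / d else 0)| ≤ 1 := by
    intro d hd
    have hd1 : 1 ≤ d := Nat.one_le_iff_ne_zero.2 (hD d hd).1.ne_zero
    rw [← mul_sub, abs_mul]
    have hmu : |(ArithmeticFunction.moebius d : ℝ)| ≤ 1 := by
      exact_mod_cast ArithmeticFunction.abs_moebius_le_one
    split_ifs with hc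
    · have := count_class d (b * k) M hd1 hc
      calc _ ≤ (1 : ℝ) * 1 := mul_le_mul hmu this (abs_nonneg _) zero_le_one
        _ = 1 := one_mul 1
    · rw [count_zero d (b * k) M hc]
      simp
  refine (Finset.sum_le_sum hterm).trans ?_
  rw [Finset.sum_const, nsmul_eq_mul, mul_one]
  have hsub : D ⊆ Icc 1 Y := by
    intro d hd
    rw [mem_Icc]
    exact ⟨Nat.one_le_iff_ne_zero.2 (hD d hd).1.ne_zero, (hD d hd).2⟩
  have := card_le_card hsub
  rw [Nat.card_Icc, Nat.add_sub_cancel] at this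
  exact_mod_cast this

end Pool.Agent.Helper90.Tot
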